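import Pool.Agent.Q61.NF.Ext
/-!
# MP_2f3286_ag: cyclic covers `a yⁿ = N_{E/K}(h)` of arbitrary curves, for 100% of the constants `a`

Let `K` be a number field, `E/K` a finite extension and `D ≥ 1` a number such that some element of the
Galois group of `K` permutes the embeddings of `E` in cycles whose lengths are all divisible by
`gcd(2, D) D` (for instance `E/K` cyclic of a degree divisible by `gcd(2, D) D`).

Let `Y` be ANY smooth geometrically connected curve over `K`, of any genus, and `h` a rational function on
`Y_E` whose divisor has no point in common with the divisors of its conjugates.  For `D | n` we consider the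
cyclic cover of `Y`

  `X_a : a yⁿ = N_{E/K}(h)`,  `a ∈ O_K`.

For ALL `a ∈ O_K` outside ONE set of density zero, which depends only on `E` and `D`, and not on `Y`, `h`
and `n`, the fundamental group of `X_a`, and of all its open subcurves and all smooth curves that dominate
it, has no section over `G_K`, nor over `G_L` for any finite extension `L/K` whose degree is not divisible by
`D`; also `Y` and `h` may be defined over `L` and `L ⊗ E` instead of `K` and `E`.  So the section conjecture
holds for `X_a` over `L` (a rational point would give a section; there is neither).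

More generally we consider all curves `X` over `L` with functions `h = ∑ A_j x_j`, `A_j ∈ E`, `x_j ∈ L(X)`,
and `y ∈ L(X)`, such that `N(h) = a yⁿ` and the divisors of the quotients of the conjugates of `h` are
divisible by `n`.  The second part of the theorem says that this last condition is satisfied if the
divisors of the conjugates of `h` are disjoint.

The same is true for every single `a` whose valuation at some place of `K`, which is unramified in `E` with
residue degrees divisible by `gcd(2, D) D`, is not divisible by `D`.  This place may lie above `D`; for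
instance, if `E/ℚ` is cyclic of odd prime degree `p` and `p` is inert in `E`, then no cyclic cover
`p y^p = N_{E/ℚ}(h)` of a curve over `ℚ` has a section.

The results that are known to us (the starting files of this problem and of MP_e66f84_ag, and the file
`NormCurves`) are about curves with a map to the line or to the plane of a special form: superelliptic
curves, and plane curves given by norms of linear forms.  Here the base of the cover is arbitrary.  By a
theorem of Stix the index of a curve over a `p`-adic field whose fundamental group has a section is a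
power of `p`; this is another way to see the local obstruction at the places that do not divide `D`.

Density zero is meant in the strongest sense: for every `ε > 0` there is an ideal `I ≠ 0` such that the
set lies in at most `ε #(O_K/I)` residue classes modulo `I`.

The fundamental group is described through valuations.  Let `U` be a smooth geometrically connected
curve over `k` with function field `F`, let `Ω` be an algebraic closure of `F`, and let `F_U` be the
maximal extension of `F` inside `Ω` which is unramified over the closed points of `U`, that is, over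
their local rings, which are valuation rings of `F`.  Then `π₁(U) = Gal(F_U/F)`, and the map
`π₁(U) → G_k` is the restriction of automorphisms to the algebraic closure of `k` in `Ω`.

Proof.  The Kummer argument for conjugate functions and the density theorem are in the starting library
(`Pool.Agent.TH377.NC`, `Pool.Agent.TH120.Sec`).  For `a` outside of a set of density zero there is a place
`v` of `K` at which `a` is a uniformiser and whose Frobenius element permutes the embeddings of `E` in
cycles of lengths divisible by `gcd(2, D) D`; over `L` there are a place over `v` and a prime power `ℓ | D`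
such that the valuation of `a` is not divisible by `ℓ` while all cycles have lengths divisible by
`gcd(2, ℓ) ℓ`.  If there was a section, the quotients of two conjugates of `h`, which are `ℓ`-th powers in
`F_U`, would be `ℓ`-th powers of functions fixed by the section, up to constants of an unramified
extension, and the sum of the valuations of these constants over a cycle would be `0` modulo `ℓ`; but it
is the valuation of `a`.  No condition on the reduction of the curve is needed.
-/

set_option autoImplicit false
set_option maxHeartbeats 400000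

namespace Pool.Agent.Results.MP_2f3286_ag.CyclicCoversOfCurves

open NumberField

universe u v w x y

section definitions

variable (k : Type u) (F : Type v) (Ω : Type w) [Field k] [Field F] [Field Ω] [Algebra k F]
  [Algebra F Ω] [Algebra k Ω]

/-- The inertia group of the valuation ring `W` of `Ω`, as a subgroup of `Gal(Ω/F)`: the
automorphisms of `Ω` over `F` that map `W` onto itself and act as the identity on its residue
field. -/
noncomputable def inertia (W : ValuationSubring Ω) : Subgroup (Ω ≃ₐ[F] Ω) :=
  (W.inertiaSubgroup F).map (W.decompositionSubgroup F).subtype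

/-- `F_U`, for a set `U` of valuation rings of `F`: the elements of `Ω` fixed by the inertia groups
of all valuation rings `W` of `Ω` with `W ∩ F ∈ U`.  If `Ω` is an algebraic closure of a field `F`
of characteristic zero, this is the maximal extension of `F` in `Ω` unramified over `U`. -/
noncomputable def unramified (U : Set (ValuationSubring F)) : IntermediateField F Ω :=
  ⨅ W : {W : ValuationSubring Ω // W.comap (algebraMap F Ω) ∈ U},
    IntermediateField.fixedField (inertia F Ω W.1)

/-- The map `τ : M → M` acts as `σ : K → K` on the elements that the fields `K` and `M` have in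
common when they are regarded as subfields of `Ω` through `i` and `j`. -/
def ActsAs {K M Ω : Type*} [Field K] [Field M] [Field Ω] (i : K →+* Ω) (j : M →+* Ω) (σ : K → K)
    (τ : M → M) : Prop :=
  ∀ c z, j z = i c → j (τ z) = i (σ c)

/-- Let `k ⊆ K ⊆ Ω` and `F ⊆ M ⊆ Ω` be fields.  A splitting of `Gal(M/F) → Gal(K/k)`: a continuous
homomorphism `s` from `Gal(K/k)` to `Gal(M/F)` such that `s(σ)` acts as `σ` on the elements of
`K ∩ M`. -/
structure Splitting (K M : Type*) [Field K] [Field M] [Algebra k K] [Algebra F M] [Algebra K Ω]
    [Algebra M Ω] where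
  /-- the homomorphism `Gal(K/k) → Gal(M/F)` -/
  toHom : (K ≃ₐ[k] K) →* (M ≃ₐ[F] M)
  cont : Continuous toHom
  compat : ∀ σ : K ≃ₐ[k] K, ActsAs (algebraMap K Ω) (algebraMap M Ω) σ (toHom σ)

/-- The sections of `π₁(U) = Gal(F_U/F) → G_k`: the continuous homomorphisms `s` from
`G_k = Gal(k̄/k)` to `Gal(F_U/F)`, where `k̄` is the algebraic closure of `k` in `Ω`, such that
`s(σ)` acts as `σ` on the elements of `k̄`. -/
def GaloisSection (U : Set (ValuationSubring F)) : Type w :=
  Splitting k F Ω (algebraicClosure k Ω) (unramified F Ω U)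

end definitions

section functions

variable {K : Type u} {E : Type x} {F : Type v} {Ω : Type w} [Field K] [Field E] [Algebra K E]
  [FiniteDimensional K E] [Field F] [Field Ω] [Algebra F Ω] [Algebra K Ω]

/-- The conjugate `σ(h) = ∑ σ(A_j) x_j` of the function `h = ∑ A_j x_j`, `A_j ∈ E`, `x_j ∈ F`, for an
embedding `σ` of `E` into the algebraically closed field `Ω ⊇ F`. -/
noncomputable def conjugate {r : ℕ} (A : Fin r → E) (x : Fin r → F) (σ : E →ₐ[K] Ω) : Ω :=
  ∑ j, σ (A j) * algebraMap F Ω (x j)

/-- The element `z` is a unit of the valuation ring `W`: it has neither a zero nor a pole at the point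
`W`. -/
def UnitAt (W : ValuationSubring Ω) (z : Ω) : Prop := z ≠ 0 ∧ z ∈ W ∧ z⁻¹ ∈ W

/-- The order of `z` is divisible by `n` at all points over the set `U` of valuation rings of `F`: it is
the order of the `n`-th power of an element of `F`. -/
def OrderDivisible (U : Set (ValuationSubring F)) (n : ℕ) (z : Ω) : Prop :=
  ∀ W : ValuationSubring Ω, W.comap (algebraMap F Ω) ∈ U →
    ∃ t : F, t ≠ 0 ∧ UnitAt W (z / algebraMap F Ω t ^ n)

/-- The function `h = ∑ A_j x_j` is not zero and its norm, the product of its conjugates, is `a yⁿ`. -/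
def HasNorm (Ω : Type w) [Field Ω] [Algebra F Ω] [Algebra K Ω] (n : ℕ) (a : K) {r : ℕ}
    (A : Fin r → E) (x : Fin r → F) (y : F) : Prop :=
  (∀ σ : E →ₐ[K] Ω, conjugate A x σ ≠ 0) ∧
    ∏ σ : E →ₐ[K] Ω, conjugate A x σ = algebraMap K Ω a * algebraMap F Ω y ^ n

end functions

/-- The divisors of the conjugates of `h = ∑ A_j x_j` are disjoint on `U`: there is no point over `U` at which
two different conjugates of `h` have zeros or poles. -/
def DisjointDivisors (K : Type u) {E : Type x} {F : Type v} (Ω : Type w) [Field K] [Field E]
    [Algebra K E] [Field F] [Field Ω] [Algebra F Ω] [Algebra K Ω] (U : Set (ValuationSubring F))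
    {r : ℕ} (A : Fin r → E) (x : Fin r → F) : Prop :=
  ∀ W : ValuationSubring Ω, W.comap (algebraMap F Ω) ∈ U → ∀ σ τ : E →ₐ[K] Ω, σ ≠ τ →
    UnitAt W (conjugate A x σ) ∨ UnitAt W (conjugate A x τ)

/-- Some element of the Galois group of `K` permutes the embeddings of `E` in cycles whose lengths are
all divisible by `N`. -/
def HasCycles (K : Type u) (E : Type x) [Field K] [Field E] [Algebra K E] (N : ℕ) : Prop :=
  ∃ σ : AlgebraicClosure K ≃ₐ[K] AlgebraicClosure K, ∀ (τ : E →ₐ[K] AlgebraicClosure K) (m : ℕ),
    (∀ z, (σ ^ m) (τ z) = τ z) → N ∣ m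

/-- The assertion for the extension `E/K` and the numbers `D`, `a` and `m`: for all finite extensions `L` of
`K` such that `D` does not divide `m [L : K]`, all `n ≥ 1` divisible by `D`, all fields `F` over `L`
(function fields of curves or varieties `X` over `L`) with algebraic closure `Ω`, and all sets `U` of
valuation rings of `F` over `L` (points of `X`): if there are functions `h = ∑ A_j x_j` and `y` with
`N(h) = a yⁿ` such that the orders of all quotients `σ(h)/τ(h)` at the points of `U` are divisible by `n`,
then `π₁(U) → G_L` has no section. -/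
def NoSections {K : Type u} (E : Type x) [Field K] [Field E] [Algebra K E] [FiniteDimensional K E]
    (D : ℕ) (a : K) (m : ℤ) : Prop :=
  ∀ (L : Type y) [Field L] [Algebra K L] [FiniteDimensional K L],
    ¬ (D : ℤ) ∣ m * Module.finrank K L → ∀ n : ℕ, 0 < n → D ∣ n →
      ∀ (F : Type v) (Ω : Type w) [Field F] [Field Ω] [Algebra L F] [Algebra F Ω] [Algebra L Ω]
        [Algebra K Ω] [IsScalarTower L F Ω] [IsScalarTower K L Ω] [IsAlgClosure F Ω]
        (U : Set (ValuationSubring F)), (∀ O ∈ U, ∀ c : L, algebraMap L F c ∈ O) →
        ∀ (r : ℕ) (A : Fin r → E) (x : Fin r → F) (y : F), HasNorm Ω n a A x y →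
          (∀ σ τ : E →ₐ[K] Ω, OrderDivisible U n (conjugate A x σ / conjugate A x τ)) →
            IsEmpty (GaloisSection L F Ω U)

/-- Density zero: for every `ε > 0` there is an ideal `I ≠ 0` such that `S` lies in at most
`ε #(O_K/I)` residue classes modulo `I`. -/
def DensityZero {K : Type u} [Field K] (S : Set (𝓞 K)) : Prop :=
  ∀ ε : ℝ, 0 < ε → ∃ I : Ideal (𝓞 K), I ≠ ⊥ ∧
    (Set.ncard ((Ideal.Quotient.mk I) '' S) : ℝ) ≤ ε * Nat.card (𝓞 K ⧸ I)

section proof

open Pool.Agent.TH377.NC Polynomial IsDedekindDomain Pool.Agent.TH377.LocG Pool.Agent.TH120.Sec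
  Pool.Agent.W620.SC Pool.Agent.Q61.NF

lemma toSec {k : Type u} {F : Type v} {Ω : Type w} [Field k] [Field F] [Field Ω] [Algebra k F]
    [Algebra F Ω] [Algebra k Ω] (U : Set (ValuationSubring F))
    (h : IsEmpty (Pool.Agent.W620.SC.GSection k F Ω U)) : IsEmpty (GaloisSection k F Ω U) :=
  ⟨fun s => h.false ⟨s.toHom, s.cont, s.compat⟩⟩

lemma ordDiv {F : Type v} {Ω : Type w} [Field F] [Field Ω] [Algebra F Ω]
    {U : Set (ValuationSubring F)} {n : ℕ} {a b : Ω} (h : OrderDivisible U n (a / b)) :
    OrdDiv Ω U n a b := by
  intro W hW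
  obtain ⟨t, ht, h1, h2, h3⟩ := h W hW
  refine ⟨t, ht, h2, ?_⟩
  rwa [inv_div] at h3

/-- a good place gives the assertions -/
theorem of_place {K : Type u} [Field K] [NumberField K] {E : Type x} [Field E] [Algebra K E]
    [FiniteDimensional K E] (pb : PowerBasis K E) (g : (𝓞 K)[X]) (hg : g.Monic)
    (hgK : g.map (algebraMap (𝓞 K) K) = minpoly K pb.gen)
    (D : ℕ) (hD : D ≠ 0) (a : 𝓞 K)
    (v₀ : HeightOneSpectrum (𝓞 K)) (ha : a ∈ v₀.asIdeal) (ha' : a ∉ v₀.asIdeal ^ 2)
    (hs : (g.map (Ideal.Quotient.mk v₀.asIdeal)).Separable)
    (hcyc : ∀ n : ℕ, ¬ Nat.gcd 2 D * D ∣ n → IsCoprime (X ^ (Ideal.absNorm v₀.asIdeal ^ n) - X)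
      (g.map (Ideal.Quotient.mk v₀.asIdeal))) :
    NoSections.{u, v, w, x, y} E D (algebraMap (𝓞 K) K a) 1 := by
  intro L _ _ _ hL' n hn0 hDn F Ω _ _ _ _ _ _ _ _ _ U hU r A x y hN hdiv
  have hL : ¬ D ∣ Module.finrank K L := by
    intro h
    apply hL'
    rw [one_mul]
    exact_mod_cast h
  have hLn : NumberField L := NumberField.of_module_finite K L
  obtain ⟨ℓ, hℓ0, hℓD, B, _, _, _, _, hfr, f, hf, hfK, hfs, hfd, ϖ, t, m', hϖ, ht, hm', hat⟩ :=
    nf_data (K := K) (L := L) v₀ D hD hL g hg hs hcyc a ha ha'
  have hfL : f.map (algebraMap B L) = (minpoly K pb.gen).map (algebraMap K L) := by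
    rw [hfK, ← hgK, Polynomial.map_map, ← IsScalarTower.algebraMap_eq (𝓞 K) K L]
  have haL : algebraMap K L (algebraMap (𝓞 K) K a) = algebraMap B L t * algebraMap B L ϖ ^ m' := by
    rw [← hat, ← IsScalarTower.algebraMap_apply (𝓞 K) K L]
  refine toSec U (of_data pb ℓ hℓ0 f hf hfL hfs hfd ϖ t m' hϖ ht hm' _ haL F Ω U hU n
    (hℓD.trans hDn) A x y ⟨hN.1, hN.2, fun σ τ => ordDiv (hdiv σ τ)⟩)

/-- a discrete valuation ring gives the assertions -/
theorem of_dvr {K : Type u} [Field K] [CharZero K] {E : Type x} [Field E] [Algebra K E]
    [FiniteDimensional K E] {R : Type y} [CommRing R] [IsDomain R] [IsDiscreteValuationRing R]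
    [Algebra R K] [IsFractionRing R K] (pb : PowerBasis K E) (g : R[X]) (hg : g.Monic)
    (hgK : g.map (algebraMap R K) = minpoly K pb.gen)
    (hs : (g.map (IsLocalRing.residue R)).Separable) (D : ℕ) (hD : D ≠ 0)
    (hσ : FactorDiv (Nat.gcd 2 D * D) (g.map (IsLocalRing.residue R))) (ϖ0 t0 : R)
    (hϖ0 : Irreducible ϖ0) (ht0 : IsUnit t0) (m : ℤ) (a : K)
    (ha : a = algebraMap R K t0 * algebraMap R K ϖ0 ^ m) :
    NoSections.{u, v, w, x, y} E D a m := by
  intro L _ _ _ hL n hn0 hDn F Ω _ _ _ _ _ _ _ _ _ U hU r A x y hN hdiv
  let _ : Algebra R L := ((algebraMap K L).comp (algebraMap R K)).toAlgebra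
  have hstR : IsScalarTower R K L := IsScalarTower.of_algebraMap_eq (fun _ => rfl)
  obtain ⟨ℓ, hℓ0, hℓD, B, _, _, _, _, hfr, f, hf, hfK, hfs, hfd, ϖ, t, m', hϖ, ht, hm', hat⟩ :=
    dvr_data (k := K) (L := L) g hg hs D hD hσ ϖ0 t0 hϖ0 ht0 m hL
  have hfL : f.map (algebraMap B L) = (minpoly K pb.gen).map (algebraMap K L) := by
    rw [hfK, ← hgK, Polynomial.map_map, ← IsScalarTower.algebraMap_eq R K L]
  have haL : algebraMap K L a = algebraMap B L t * algebraMap B L ϖ ^ m' := by
    rw [← hat, ha, map_mul, map_zpow₀]
    rfl
  refine toSec U (of_data pb ℓ hℓ0 f hf hfL hfs hfd ϖ t m' hϖ ht hm' _ haL F Ω U hU n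
    (hℓD.trans hDn) A x y ⟨hN.1, hN.2, fun σ τ => ordDiv (hdiv σ τ)⟩)

/-- Galois extensions with an element of an order divisible by `N` -/
theorem hasCycles_of_galois {K : Type u} [Field K] {E : Type x} [Field E] [Algebra K E]
    [FiniteDimensional K E] [IsGalois K E] (N : ℕ) (s : E ≃ₐ[K] E) (hs : N ∣ orderOf s) :
    HasCycles K E N := by
  let τ₀ : E →ₐ[K] AlgebraicClosure K := IsAlgClosed.lift
  let _ : Algebra E (AlgebraicClosure K) := τ₀.toRingHom.toAlgebra
  have hst : IsScalarTower K E (AlgebraicClosure K) :=
    IsScalarTower.of_algebraMap_eq fun z => (τ₀.commutes z).symm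
  refine ⟨s.liftNormal (AlgebraicClosure K), fun τ m hm => hs.trans ?_⟩
  have hpow : ∀ (m : ℕ) (z : E), ((s.liftNormal (AlgebraicClosure K)) ^ m)
      (algebraMap E (AlgebraicClosure K) z) = algebraMap E (AlgebraicClosure K) ((s ^ m) z) := by
    intro m
    induction m with
    | zero => intro z; simp
    | succ m ih =>
      intro z
      rw [pow_succ, pow_succ, AlgEquiv.mul_apply, AlgEquiv.mul_apply, AlgEquiv.liftNormal_commutes,
        ih]
  have hsurj : Function.Surjective (τ.restrictNormal E) := by
    have := (τ.restrictNormal E).toLinearMap.injective_iff_surjective.1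
      (τ.restrictNormal E).toRingHom.injective
    exact this
  refine orderOf_dvd_of_pow_eq_one (AlgEquiv.ext fun z => ?_)
  obtain ⟨y, rfl⟩ := hsurj z
  apply (algebraMap E (AlgebraicClosure K)).injective
  rw [← hpow, AlgEquiv.one_apply, AlgHom.restrictNormal_commutes]
  exact hm y

end proof

/-- (1) Let `K` be a number field, `E/K` a finite extension and `D ≥ 1` such that some element of the
Galois group of `K` permutes the embeddings of `E` in cycles whose lengths are all divisible by
`gcd(2, D) D`.  Then for all `a ∈ O_K` outside of a set of density zero, for all finite extensions `L` of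
`K` whose degree is not divisible by `D`, all `n ≥ 1` divisible by `D`, and all (smooth geometrically
connected) curves `U` over `L` with functions `h ∈ E ⊗ L(U)`, `y ∈ L(U)` such that `N(h) = a yⁿ` and the
divisors on `U` of the quotients of the conjugates of `h` are divisible by `n`, the fundamental group of `U`
has no section over `G_L`.
(2) The same is true for every `a ∈ K` of valuation `m` at a place of `K` (possibly above `D`) which is
unramified in `E` with residue degrees divisible by `gcd(2, D) D`, if `D` does not divide `m [L : K]`: let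
`R ⊆ K` be the valuation ring, `E = K(θ)`, where `θ` is a root of the monic polynomial `g ∈ R[T]`, whose
reduction is separable with irreducible factors of degrees divisible by `gcd(2, D) D`.
(3) The condition on the divisors is satisfied if the divisors on `U` of the conjugates of `h` are
disjoint; so (1) and (2) apply to the cyclic covers `a yⁿ = N(h)` of all curves over `L`, for all functions
`h` whose divisor has no point in common with those of its conjugates.
(4) The condition on `E` in (1) holds if `E/K` is Galois and the order of some element of its Galois group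
is divisible by `gcd(2, D) D`. -/
theorem result (K : Type u) [Field K] [NumberField K] (E : Type x) [Field E] [Algebra K E]
    [FiniteDimensional K E] (D : ℕ) (hD : D ≠ 0) :
    (HasCycles K E (Nat.gcd 2 D * D) →
      DensityZero {a : 𝓞 K | ¬ NoSections.{u, v, w, x, y} E D (algebraMap (𝓞 K) K a) 1}) ∧
    (∀ (R : Type y) [CommRing R] [IsDomain R] [IsDiscreteValuationRing R] [Algebra R K]
      [IsFractionRing R K] (θ : E) (g : Polynomial R) (ϖ t : R) (m : ℤ) (a : K),
      Algebra.adjoin K {θ} = ⊤ → g.Monic → g.map (algebraMap R K) = minpoly K θ →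
        (g.map (IsLocalRing.residue R)).Separable →
        (∀ q : Polynomial (IsLocalRing.ResidueField R), Irreducible q →
          q ∣ g.map (IsLocalRing.residue R) → Nat.gcd 2 D * D ∣ q.natDegree) →
        Irreducible ϖ → IsUnit t → a = algebraMap R K t * algebraMap R K ϖ ^ m →
          NoSections.{u, v, w, x, y} E D a m) ∧
    (∀ (F : Type v) (Ω : Type w) [Field F] [Field Ω] [Algebra F Ω] [Algebra K Ω]
      (U : Set (ValuationSubring F)) (n : ℕ) (a : K) (r : ℕ) (A : Fin r → E) (x : Fin r → F) (y : F),
      (∀ W : ValuationSubring Ω, W.comap (algebraMap F Ω) ∈ U → ∀ c : K, algebraMap K Ω c ∈ W) →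
        0 < n → a ≠ 0 → HasNorm Ω n a A x y → DisjointDivisors K Ω U A x →
          ∀ σ τ : E →ₐ[K] Ω, OrderDivisible U n (conjugate A x σ / conjugate A x τ)) ∧
    ((IsGalois K E ∧ ∃ s : E ≃ₐ[K] E, Nat.gcd 2 D * D ∣ orderOf s) →
      HasCycles K E (Nat.gcd 2 D * D)) := by
  refine ⟨?_, ?_, ?_, fun ⟨_, s, hs⟩ => hasCycles_of_galois _ s hs⟩
  · rintro ⟨σ, hσ⟩
    classical
    rcases Nat.lt_or_ge D 2 with hD2 | hD2
    · -- `D = 1`: nothing to prove
      have hD1 : D = 1 := by omega
      subst hD1
      have hempty : {a : 𝓞 K | ¬ NoSections.{u, v, w, x, y} E 1 (algebraMap (𝓞 K) K a) 1} = ∅ := by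
        rw [Set.eq_empty_iff_forall_notMem]
        intro a ha
        exact ha fun L _ _ _ hL => absurd (by rw [Nat.cast_one]; exact one_dvd _) hL
      rw [hempty]
      intro ε hε
      refine ⟨⊤, top_ne_bot, ?_⟩
      rw [Set.image_empty, Set.ncard_empty, Nat.cast_zero]
      positivity
    obtain ⟨pb, g, hg, hgK, hgd⟩ := Pool.Agent.TH377.NC.exists_gen K E
    have hN : 3 ≤ Nat.gcd 2 D * D := by
      rcases Nat.lt_or_ge D 3 with h | h
      · have : D = 2 := by omega
        subst this
        decide
      · have : 0 < Nat.gcd 2 D := Nat.gcd_pos_of_pos_left _ two_pos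
        nlinarith
    have hsp := Pool.Agent.TH377.NC.spc_of_gen pb g hg hgK _ hN σ hσ
    refine Pool.Agent.TH120.Sec.fam_dz _ _ _ _ σ hsp _ ?_
    rintro a ha v₀ ⟨h1, h2, h3⟩
    rw [Polynomial.eval_X] at h1 h2
    obtain ⟨_, _, h4, _, h5⟩ := h3
    have hmap : (g.map Polynomial.C).map (Polynomial.evalRingHom a) = g := by
      rw [Polynomial.map_map]
      have : (Polynomial.evalRingHom a).comp Polynomial.C = RingHom.id (𝓞 K) := by
        ext z
        simp
      rw [this, Polynomial.map_id]
    rw [hmap] at h4 h5
    exact ha (of_place pb g hg hgK D hD a v₀ h1 h2 h4 (h5 (by omega)))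
  · intro R _ _ _ _ _ θ g ϖ t m a hθ hg hgK hs hσ hϖ ht ha
    have hint : IsIntegral K θ := Algebra.IsIntegral.isIntegral θ
    exact of_dvr (PowerBasis.ofAdjoinEqTop hint hθ) g hg
      (by rw [PowerBasis.ofAdjoinEqTop_gen]; exact hgK) hs D hD hσ ϖ t hϖ ht m a ha
  · intro F Ω _ _ _ _ U n a r A x y hUK hn ha hN hdis σ τ W hW
    obtain ⟨t, ht, h1, h2⟩ := Pool.Agent.Q61.NF.ordDiv_of_disjoint U n hn a ha A x y hUK hN.1 hN.2
      (fun W hW σ τ hst => hdis W hW σ τ hst) σ τ W hW
    refine ⟨t, ht, ?_, h1, ?_⟩
    · exact div_ne_zero (div_ne_zero (hN.1 σ) (hN.1 τ))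
        (pow_ne_zero _ ((_root_.map_ne_zero _).2 ht))
    · rw [inv_div]
      exact h2

end Pool.Agent.Results.MP_2f3286_ag.CyclicCoversOfCurves
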