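import Pool.Agent.Q61.GF.Num
/-!
# MP_2f3286_ag: 100% of the generalised Fermat curves

Let `K` be a number field and `n ≥ 3`.  We prove that for 100% of the triples `(a, b, c)` of integers of `K`
the generalised Fermat curve

  `a xⁿ + b yⁿ + c zⁿ = 0`

satisfies the section conjecture, together with all its open subcurves and all smooth curves over `K` that
dominate it: there are neither rational points nor sections of the fundamental group.  In the family all
three coefficients vary.

More precisely let `M` be an odd prime number and `D = M`, or `M = 4` and `D = 2`; every `n ≥ 3` is divisible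
by such an `M`.  For all `(a, b, c) ∈ O_K³` outside of a set of density zero, the coefficients are not zero and
for ALL `n` divisible by `M` and ALL finite extensions `L/K` whose degree is not divisible by `D` the curve has
no point over `L`, and the fundamental groups of its open subcurves over `L`, and of all smooth curves over
`L` that dominate it, have no section over `G_L`.

Density zero is meant in the strongest sense: for every `ε > 0` there is an ideal `I ≠ 0` such that the
set lies in at most `ε #(O_K/I)³` residue classes modulo `I`.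

The fundamental group is described through valuations.  Let `U` be a smooth geometrically connected
curve over `k` with function field `F`, let `Ω` be an algebraic closure of `F`, and let `F_U` be the
maximal extension of `F` inside `Ω` which is unramified over the closed points of `U`, that is, over
their local rings, which are valuation rings of `F`.  Then `π₁(U) = Gal(F_U/F)`, and the map
`π₁(U) → G_k` is the restriction of automorphisms to the algebraic closure of `k` in `Ω`.

In the starting files the coefficients of superelliptic curves `a yⁿ = c₀ + c₁ x + … + c_d x^d` vary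
independently (the diagonal curves are a subset of density zero there), or only `a` varies; in the file
`NormCurves` only the constant `a` of a norm-form curve with a fixed field `E` varies.  Here the field
`E = K((-c/b)^{1/M})` varies with the coefficients.

Proof.  The curve is a norm-form curve: `y^M + (c/b) z^M = -(a/b) x^M` is the norm of `y - θ z`.  For
`(a, b, c)` outside of a set of density zero there is a place `v` of `K` with `N v ≡ 1` modulo `M`, at which
`a` is a uniformiser, `b` and `c` are units and `-c/b` is not a `q`-th power modulo `v`, where `q` is the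
prime divisor of `M`, so that `v` is inert in `E`.  At such a place there are no sections, also over `L`, by
the Kummer argument for conjugate linear forms of the starting library (`Pool.Agent.TH377.NC`).  The places
with `N v ≡ 1` modulo `M` are found with Chebotarev's theorem, and the triples are counted with the help of
`Pool.Agent.TH120.Sec`.
-/

set_option autoImplicit false
set_option maxHeartbeats 400000

namespace Pool.Agent.Results.MP_2f3286_ag.GeneralizedFermat

open NumberField

universe u v w x y

section definitions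

variable (k : Type u) (F : Type v) (Ω : Type w) [Field k] [Field F] [Field Ω] [Algebra k F]
  [Algebra F Ω] [Algebra k Ω]

/-- The inertia group of the valuation ring `W` of `Ω`, as a subgroup of `Gal(Ω/F)`: the
automorphisms of `Ω` over `F` that map `W` onto itself and act as the identity on its residue
field. -/
noncomputable def inertia (W : ValuationSubring Ω) : Subgroup (Ω ≃ₐ[F] Ω) :=
  (W.inertiaSubgroup F).map (W.decompositionSubgroup F).subtype

/-- `F_U`, for a set `U` of valuation rings of `F`: the elements of `Ω` fixed by the inertia groups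
of all valuation rings `W` of `Ω` with `W ∩ F ∈ U`.  If `Ω` is an algebraic closure of a field `F`
of characteristic zero, this is the maximal extension of `F` in `Ω` unramified over `U`. -/
noncomputable def unramified (U : Set (ValuationSubring F)) : IntermediateField F Ω :=
  ⨅ W : {W : ValuationSubring Ω // W.comap (algebraMap F Ω) ∈ U},
    IntermediateField.fixedField (inertia F Ω W.1)

/-- The map `τ : M → M` acts as `σ : K → K` on the elements that the fields `K` and `M` have in
common when they are regarded as subfields of `Ω` through `i` and `j`. -/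
def ActsAs {K M Ω : Type*} [Field K] [Field M] [Field Ω] (i : K →+* Ω) (j : M →+* Ω) (σ : K → K)
    (τ : M → M) : Prop :=
  ∀ c z, j z = i c → j (τ z) = i (σ c)

/-- Let `k ⊆ K ⊆ Ω` and `F ⊆ M ⊆ Ω` be fields.  A splitting of `Gal(M/F) → Gal(K/k)`: a continuous
homomorphism `s` from `Gal(K/k)` to `Gal(M/F)` such that `s(σ)` acts as `σ` on the elements of
`K ∩ M`. -/
structure Splitting (K M : Type*) [Field K] [Field M] [Algebra k K] [Algebra F M] [Algebra K Ω]
    [Algebra M Ω] where
  /-- the homomorphism `Gal(K/k) → Gal(M/F)` -/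
  toHom : (K ≃ₐ[k] K) →* (M ≃ₐ[F] M)
  cont : Continuous toHom
  compat : ∀ σ : K ≃ₐ[k] K, ActsAs (algebraMap K Ω) (algebraMap M Ω) σ (toHom σ)

/-- The sections of `π₁(U) = Gal(F_U/F) → G_k`: the continuous homomorphisms `s` from
`G_k = Gal(k̄/k)` to `Gal(F_U/F)`, where `k̄` is the algebraic closure of `k` in `Ω`, such that
`s(σ)` acts as `σ` on the elements of `k̄`. -/
def GaloisSection (U : Set (ValuationSubring F)) : Type w :=
  Splitting k F Ω (algebraicClosure k Ω) (unramified F Ω U)

end definitions

/-- The curve `a xⁿ + b yⁿ + c zⁿ = 0`, `f = (a, b, c)`, has no point over `L`. -/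
def NoPoint {K : Type u} [Field K] (f : Fin 3 → 𝓞 K) (n : ℕ) (L : Type y) [Field L] [Algebra K L] :
    Prop :=
  ¬ ∃ x : Fin 3 → L, x ≠ 0 ∧ ∑ i, algebraMap K L (f i) * x i ^ n = 0

/-- Let `F` be any field over `L` that contains a point of the curve, for instance the function field
of the curve over `L`, and let `Ω` be an algebraic closure of `F`.  Then for every set `U` of
valuation rings of `F` over `L` there is no section of `π₁(U) → G_L`.  If `F` is the function field of
the curve, such `U` are given by the smooth projective curve and by all its open subcurves. -/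
def NoSection {K : Type u} [Field K] (f : Fin 3 → 𝓞 K) (n : ℕ) (L : Type y) [Field L]
    [Algebra K L] : Prop :=
  ∀ (F : Type v) (Ω : Type w) [Field F] [Field Ω] [Algebra L F] [Algebra F Ω] [Algebra L Ω]
    [IsScalarTower L F Ω] [IsAlgClosure F Ω] (x : Fin 3 → F) (U : Set (ValuationSubring F)),
    x ≠ 0 → ∑ i, algebraMap L F (algebraMap K L (f i)) * x i ^ n = 0 →
      (∀ O ∈ U, ∀ c : L, algebraMap L F c ∈ O) → IsEmpty (GaloisSection L F Ω U)

/-- All the assertions for the curves with the coefficients `f = (a, b, c)` and the exponents divisible by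
`M`, over all extensions `L` of `K` whose degree is not divisible by `D`. -/
def Nothing {K : Type u} [Field K] (M D : ℕ) (f : Fin 3 → 𝓞 K) : Prop :=
  (∀ i, f i ≠ 0) ∧ ∀ n : ℕ, 0 < n → M ∣ n →
    ∀ (L : Type y) [Field L] [Algebra K L] [FiniteDimensional K L], ¬ D ∣ Module.finrank K L →
      NoPoint f n L ∧ NoSection.{u, v, w, y} f n L

/-- Density zero: for every `ε > 0` there is an ideal `I ≠ 0` such that `S` lies in at most
`ε #(O_K/I)³` residue classes modulo `I`. -/
def DensityZero {K : Type u} [Field K] (S : Set (Fin 3 → 𝓞 K)) : Prop :=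
  ∀ ε : ℝ, 0 < ε → ∃ I : Ideal (𝓞 K), I ≠ ⊥ ∧
    (Set.ncard ((fun (f : Fin 3 → 𝓞 K) i => Ideal.Quotient.mk I (f i)) '' S) : ℝ) ≤
      ε * (Nat.card (𝓞 K ⧸ I) : ℝ) ^ 3

section proof

open Pool.Agent.Q61.GF Pool.Agent.TH120.Sec

lemma toSec {k : Type u} {F : Type v} {Ω : Type w} [Field k] [Field F] [Field Ω] [Algebra k F]
    [Algebra F Ω] [Algebra k Ω] (U : Set (ValuationSubring F))
    (h : IsEmpty (Pool.Agent.W620.SC.GSection k F Ω U)) : IsEmpty (GaloisSection k F Ω U) :=
  ⟨fun s => h.false ⟨s.toHom, s.cont, s.compat⟩⟩

lemma pow_vec {F : Type*} [Field F] (x : Fin 3 → F) (hx : x ≠ 0) (n : ℕ) :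
    (fun i => x i ^ n) ≠ 0 := by
  intro h
  apply hx
  funext i
  have h1 : x i ^ n = 0 := congrFun h i
  exact eq_zero_of_pow_eq_zero h1

lemma nothing_of {K : Type u} [Field K] [NumberField K] (M D : ℕ) (f : Fin 3 → 𝓞 K)
    (h0 : f 0 ≠ 0) (h1 : f 1 ≠ 0) (h2 : f 2 ≠ 0)
    (h : Pool.Agent.Q61.GF.Empty.{u, v, w, y} M D (algebraMap (𝓞 K) K (f 0)) (algebraMap (𝓞 K) K (f 1))
      (algebraMap (𝓞 K) K (f 2))) : Nothing.{u, v, w, y} M D f := by
  refine ⟨fun i => by fin_cases i <;> assumption, ?_⟩
  rintro n hn ⟨m, rfl⟩ L _ _ _ hL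
  obtain ⟨hp, hs⟩ := h L hL
  refine ⟨?_, ?_⟩
  · rintro ⟨x, hx, hsum⟩
    refine hp (fun i => x i ^ m) (pow_vec x hx m) ?_
    rw [Fin.sum_univ_three] at hsum
    rw [← hsum]
    simp only [← pow_mul, mul_comm m M]
  · intro F Ω _ _ _ _ _ _ _ x U hx hsum hU
    refine toSec U (hs F Ω (fun i => x i ^ m) U (pow_vec x hx m) ?_ hU)
    rw [Fin.sum_univ_three] at hsum
    rw [← hsum]
    simp only [← pow_mul, mul_comm m M]

end proof

/-- Let `K` be a number field.  (1) Let `M` be an odd prime number.  For all `(a, b, c) ∈ O_K³` outside of a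
set of density zero, the coefficients are not zero, and for all `n ≥ 1` divisible by `M` and all finite
extensions `L/K` whose degree is not divisible by `M`, the curve `a xⁿ + b yⁿ + c zⁿ = 0` has no point over
`L`, and the fundamental groups of its open subcurves over `L` and of all smooth curves over `L` that
dominate it have no sections over `G_L`.  (2) The same is true for `n` divisible by `4` and extensions `L` of
odd degree.  (3) For every `n ≥ 3` and all `(a, b, c) ∈ O_K³` outside of a set of density zero, the
coefficients are not zero, the curve `a xⁿ + b yⁿ + c zⁿ = 0` has no point over `K`, and the fundamental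
groups of its open subcurves and of all smooth curves over `K` that dominate it have no sections; and the
same holds, with the same exceptional set, for all multiples of `n`. -/
theorem result (K : Type u) [Field K] [NumberField K] :
    (∀ M : ℕ, M.Prime → M ≠ 2 →
      DensityZero {f : Fin 3 → 𝓞 K | ¬ Nothing.{u, v, w, y} M M f}) ∧
    DensityZero {f : Fin 3 → 𝓞 K | ¬ Nothing.{u, v, w, y} 4 2 f} ∧
    ∀ n : ℕ, 3 ≤ n → DensityZero {f : Fin 3 → 𝓞 K | ¬ ((∀ i, f i ≠ 0) ∧ ∀ N : ℕ, 0 < N → n ∣ N →
      NoPoint f N K ∧ NoSection.{u, v, w, u} f N K)} := by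
  have mono : ∀ S T : Set (Fin 3 → 𝓞 K), S ⊆ T → DensityZero T → DensityZero S := by
    intro S T hST hT ε hε
    obtain ⟨I, hI, hle⟩ := hT ε hε
    have hfin : Finite (𝓞 K ⧸ I) := Ideal.finiteQuotientOfFreeOfNeBot _ hI
    refine ⟨I, hI, le_trans ?_ hle⟩
    exact_mod_cast Set.ncard_le_ncard (Set.image_mono hST) (Set.toFinite _)
  have main : ∀ M D q : ℕ, q.Prime → ((M = q ∧ D = q ∧ q ≠ 2) ∨ (M = 4 ∧ D = 2 ∧ q = 2)) →
      DensityZero {f : Fin 3 → 𝓞 K | ¬ Nothing.{u, v, w, y} M D f} := by
    intro M D q hq h
    refine mono _ _ ?_ (Pool.Agent.Q61.GF.density.{u, v, w, y} (K := K) M D q hq h)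
    intro f hf hgood
    exact hf (nothing_of M D f hgood.1 hgood.2.1 hgood.2.2.1 hgood.2.2.2)
  have main' : ∀ M D q : ℕ, q.Prime → ((M = q ∧ D = q ∧ q ≠ 2) ∨ (M = 4 ∧ D = 2 ∧ q = 2)) →
      DensityZero {f : Fin 3 → 𝓞 K | ¬ Nothing.{u, v, w, u} M D f} := by
    intro M D q hq h
    refine mono _ _ ?_ (Pool.Agent.Q61.GF.density.{u, v, w, u} (K := K) M D q hq h)
    intro f hf hgood
    exact hf (nothing_of M D f hgood.1 hgood.2.1 hgood.2.2.1 hgood.2.2.2)
  refine ⟨fun M hM hM2 => main M M M hM (Or.inl ⟨rfl, rfl, hM2⟩),
    main 4 2 2 Nat.prime_two (Or.inr ⟨rfl, rfl, rfl⟩), fun n hn => ?_⟩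
  have key : ∀ M D q : ℕ, q.Prime → ((M = q ∧ D = q ∧ q ≠ 2) ∨ (M = 4 ∧ D = 2 ∧ q = 2)) → M ∣ n →
      DensityZero {f : Fin 3 → 𝓞 K | ¬ ((∀ i, f i ≠ 0) ∧ ∀ N : ℕ, 0 < N → n ∣ N →
        NoPoint f N K ∧ NoSection.{u, v, w, u} f N K)} := by
    intro M D q hq h hMn
    refine mono _ _ ?_ (main' M D q hq h)
    intro f hf hgood
    refine hf ⟨hgood.1, fun N hN hnN => hgood.2 N hN (hMn.trans hnN) K ?_⟩
    rw [Module.finrank_self, Nat.dvd_one]
    rcases h with ⟨-, h2, -⟩ | ⟨-, h2, -⟩
    · rw [h2]
      exact hq.one_lt.ne'
    · rw [h2]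
      norm_num
  rcases Nat.four_dvd_or_exists_odd_prime_and_dvd_of_two_lt (show 2 < n by omega) with h4 | ⟨p, hp, hpn, hodd⟩
  · exact key 4 2 2 Nat.prime_two (Or.inr ⟨rfl, rfl, rfl⟩) h4
  · exact key p p p hp (Or.inl ⟨rfl, rfl, by rintro rfl; exact absurd hodd (by decide)⟩) hpn

end Pool.Agent.Results.MP_2f3286_ag.GeneralizedFermat
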