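import Mathlib
import Pool.Agent.Q284.SC.Fin
import Pool.Agent.Q284.FDQ.Mdl
import Pool.Agent.Y667.RP.Disc
import Pool.Agent.W672.FK.Lowf
import Pool.Agent.W307.RT.Tors

/-!
# Locally geometric sections for the curves over the 2-isogeny coverings of a positive proportion of
the elliptic curves with full rational 2-torsion

All elliptic curves `E` over `ℚ` with full rational 2-torsion, ordered by the naive height or by the
absolute value of the minimal discriminant. For an equation `y² = x (x - A) (x - B)` of `E` and a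
squarefree `b ∣ A B` let `C_b` be the curve of genus one
`N² = b M⁴ - (A + B) M² e² + (A B / b) e⁴`. For every `T` the following holds for a positive
proportion of the curves `E`: for ALL their equations and all `C_b` without rational points no smooth
curve `U` over `ℚ` with a map to `C_b` (given by a point of `C_b` over its function field) has a
section of `π₁(U) → G_ℚ` which is given over `ℝ` and over all `ℚ_p` by points or cusps of `U` over
these fields (a locally geometric section, or Selmer section); and for some equation at least `2 ^ T`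
of the curves `C_b` have points over `ℝ` and all `ℚ_p` and no rational point. No finiteness of
Tate-Shafarevich groups is assumed.

The fundamental group is described through valuations.  Let `U` be a smooth geometrically connected
curve over `k` with function field `F`, let `Ω` be an algebraic closure of `F`, and let `F_U` be the
maximal extension of `F` inside `Ω` which is unramified over the closed points of `U`, that is, over
their local rings, which are valuation rings of `F`.  Then `π₁(U) = Gal(F_U/F)`, and the map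
`π₁(U) → G_k` is the restriction of automorphisms to the algebraic closure of `k` in `Ω`.

Proof. Let `R` be the field of the elements of `F_U` fixed by a section `s`. The places which give
`s` over `ℝ` and `ℚ_p` induce places of `R` with values in `ℝ` and `ℚ_p`. Let `Q` be the image in `E` of
the point of `C_b` over `R`. The functions `x(Q)`, `x(Q) - A` have square roots in `F_U` up to
constants, so they are squares in `R` up to rational numbers, the class of `x(Q)` is `b`. The values
of `Q` at the places are local points with the same classes, so these classes are in the 2-Selmer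
group of `E`. For a positive proportion of the curves all its elements come from rational points of
order two, and then `C_b` has a rational point.
-/

set_option autoImplicit false

namespace Pool.Agent.Results.MP_2f3286_ag.SelmerSections

open Finset Filter Topology

/-- the curve `y² = x³ + A x + B` over `ℚ` -/
def E (A B : ℤ) : WeierstrassCurve ℚ := ⟨0, 0, 0, (A : ℚ), (B : ℚ)⟩

/-- the absolute value of the minimal discriminant of an elliptic curve `W` over `ℚ`: the smallest
absolute value of the discriminant of a Weierstrass equation `V` with integer coefficients which is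
isomorphic to `W` over `ℚ` -/
noncomputable def minDisc (W : WeierstrassCurve ℚ) : ℕ :=
  sInf {n : ℕ | ∃ (V : WeierstrassCurve ℤ) (C : WeierstrassCurve.VariableChange ℚ),
    C • W = V.map (Int.castRingHom ℚ) ∧ n = V.Δ.natAbs}

/-- the naive height of `y² = x³ + A x + B` is at most `Z` -/
def HeightLe (c : ℤ × ℤ) (Z : ℕ) : Prop := 4 * |c.1| ^ 3 ≤ Z ∧ 27 * c.2 ^ 2 ≤ Z

/-- the minimal discriminant of `y² = x³ + A x + B` is at most `Z` in absolute value -/
def DiscLe (c : ℤ × ℤ) (Z : ℕ) : Prop := minDisc (E c.1 c.2) ≤ Z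

/-- The pairs `(A, B)` of integers such that `4 A³ + 27 B² ≠ 0`, there is no prime `p` with
`p⁴ ∣ A` and `p⁶ ∣ B`, `Z/2 x Z/2` embeds in the group of the rational points of
`y² = x³ + A x + B`, and the size (`HeightLe` or `DiscLe`) is at most `Z`. Every elliptic curve over
`ℚ` with full rational 2-torsion is isomorphic to `E A B` for exactly one pair with the first three
properties. -/
def Fam (I : ℤ × ℤ → ℕ → Prop) (Z : ℕ) : Set (ℤ × ℤ) :=
  {c : ℤ × ℤ | 4 * c.1 ^ 3 + 27 * c.2 ^ 2 ≠ 0 ∧
    (∀ p : ℕ, p.Prime → ¬ ((p : ℤ) ^ 4 ∣ c.1 ∧ (p : ℤ) ^ 6 ∣ c.2)) ∧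
    (∃ f : ZMod 2 × ZMod 2 →+ (E c.1 c.2).toAffine.Point, Function.Injective f) ∧ I c Z}

/-- the proportion of the curves of `S` among the curves of size at most `Z` -/
noncomputable def proportion (I : ℤ × ℤ → ℕ → Prop) (S : Set (ℤ × ℤ)) (Z : ℕ) : ℝ :=
  ((Fam I Z ∩ S).ncard : ℝ) / (Fam I Z).ncard

lemma FamH_eq (H : ℕ) : Fam HeightLe H = (Pool.Agent.W307.RT.Cv 2 H : Set (ℤ × ℤ)) := by
  classical
  ext c
  have h : Pool.Agent.W307.RT.HasT 2 (Pool.Agent.W307.RT.Sh c.1 c.2) ↔
    ∃ f : ZMod 2 × ZMod 2 →+ (E c.1 c.2).toAffine.Point, Function.Injective f :=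
    Pool.Agent.W307.RT.tors_iff
  unfold Fam HeightLe Pool.Agent.W307.RT.Cv
  rw [Set.mem_ofPred_eq, mem_coe, mem_filter, h, mem_product, mem_Icc, mem_Icc]
  constructor
  · rintro ⟨h1, h2, h3, h4, h5⟩
    refine ⟨⟨?_, ?_⟩, h1, h4, h5, h2, h3⟩
    · rw [← abs_le]
      have h0 := abs_nonneg c.1
      rcases eq_or_lt_of_le h0 with h6 | h6
      · rw [← h6]; positivity
      · have : 1 ≤ |c.1| := h6
        nlinarith [mul_nonneg h0 h0, mul_self_nonneg (|c.1| - 1)]
    · rw [← abs_le]
      have h0 := abs_nonneg c.2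
      rw [← sq_abs] at h5
      rcases eq_or_lt_of_le h0 with h6 | h6
      · rw [← h6]; positivity
      · have : 1 ≤ |c.2| := h6
        nlinarith
  · rintro ⟨-, h1, h4, h5, h2, h3⟩
    exact ⟨h1, h2, h3, h4, h5⟩

lemma FamD_eq (D : ℕ) : Fam DiscLe D = (Pool.Agent.TH344.DS.Dv D : Set (ℤ × ℤ)) := by
  classical
  have h0 : Fam DiscLe D = Pool.Agent.W307.RS.DvS 2 D := by
    ext c
    have h : Pool.Agent.W307.RT.HasT 2 (Pool.Agent.W307.RT.Sh c.1 c.2) ↔
        ∃ f : ZMod 2 × ZMod 2 →+ (E c.1 c.2).toAffine.Point, Function.Injective f :=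
      Pool.Agent.W307.RT.tors_iff
    unfold Fam Pool.Agent.W307.RS.DvS
    rw [Set.mem_ofPred_eq, Set.mem_ofPred_eq, h]
    exact Iff.rfl
  rw [h0]
  unfold Pool.Agent.TH344.DS.Dv
  rw [dif_pos (Pool.Agent.TH344.DS.excd.1 D), Set.Finite.coe_toFinset]

/-- The number of these curves tends to infinity (ordering by height). -/
lemma tendstoH : Tendsto (fun Z : ℕ => (Fam HeightLe Z).ncard) atTop atTop := by
  simp only [FamH_eq, Set.ncard_coe_finset]
  exact Pool.Agent.W307.RT.tendsto_of_low Pool.Agent.W672.FK.lowf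

/-- The number of these curves tends to infinity (ordering by the minimal discriminant). -/
lemma tendstoD : Tendsto (fun Z : ℕ => (Fam DiscLe Z).ncard) atTop atTop := by
  have h1 := Pool.Agent.W307.RT.tendsto_of_low Pool.Agent.W672.FK.lowf
  have h2 : Tendsto (fun D : ℕ => (Pool.Agent.W307.RT.Cv 2 (D / 32)).card) atTop atTop :=
    h1.comp (Nat.tendsto_div_const_atTop (by norm_num))
  obtain ⟨hD1, hD2, hD3⟩ := Pool.Agent.TH344.DS.excd
  refine tendsto_atTop_mono (fun D => ?_) h2
  have h3 : (Pool.Agent.TH344.DS.Dv D : Set (ℤ × ℤ)) = Pool.Agent.W307.RS.DvS 2 D := by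
    unfold Pool.Agent.TH344.DS.Dv
    rw [dif_pos (hD1 D), Set.Finite.coe_toFinset]
  rw [FamD_eq, h3, ← Set.ncard_coe_finset]
  exact Set.ncard_le_ncard (Pool.Agent.W307.RS.Cv_sub Pool.Agent.W554.RS.mdl 2 (D / 32) D
    (Nat.mul_div_le D 32)) (hD1 D)

/-- the curve `y² = x (x - A) (x - B)` over `ℚ` -/
def Leg (A B : ℤ) : WeierstrassCurve ℚ := ⟨0, ((-(A + B) : ℤ) : ℚ), 0, ((A * B : ℤ) : ℚ), 0⟩

/-- `y² = x (x - A) (x - B)` is an equation of the curve `y² = x³ + c.1 x + c.2` -/
def IsModel (c : ℤ × ℤ) (A B : ℤ) : Prop :=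
  ∃ C : WeierstrassCurve.VariableChange ℚ, C • E c.1 c.2 = Leg A B

/-- The curve `C_b : N² = b M⁴ - (A + B) M² e² + (A B / b) e⁴` in a weighted projective plane has a
point over `K`. -/
def HasPoint (K : Type) [Field K] (A B b : ℤ) : Prop :=
  ∃ N M e : K, (M ≠ 0 ∨ e ≠ 0) ∧ N ^ 2 = (b : K) * M ^ 4 + ((-(A + B) : ℤ) : K) * M ^ 2 * e ^ 2 +
    ((A * B / b : ℤ) : K) * e ^ 4

section sections

variable (k F Ω : Type) [Field k] [Field F] [Field Ω] [Algebra F Ω] [Algebra k Ω]

/-- The inertia group of the valuation ring `V` of `Ω`, as a subgroup of `Gal(Ω/F)`: the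
automorphisms of `Ω` over `F` that map `V` onto itself and act as the identity on its residue
field. -/
noncomputable def inertia (V : ValuationSubring Ω) : Subgroup (Ω ≃ₐ[F] Ω) :=
  (V.inertiaSubgroup F).map (V.decompositionSubgroup F).subtype

/-- `F_U`, for a set `U` of valuation rings of `F`: the elements of `Ω` fixed by the inertia groups
of all valuation rings `V` of `Ω` with `V ∩ F ∈ U`.  If `Ω` is an algebraic closure of a field `F`
of characteristic zero, this is the maximal extension of `F` in `Ω` unramified over `U`. -/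
noncomputable def unramified (U : Set (ValuationSubring F)) : IntermediateField F Ω :=
  ⨅ V : {V : ValuationSubring Ω // V.comap (algebraMap F Ω) ∈ U},
    IntermediateField.fixedField (inertia F Ω V.1)

/-- The map `τ : M → M` acts as `σ : K → K` on the elements that the fields `K` and `M` have in
common when they are regarded as subfields of `Ω` through `i` and `j`. -/
def ActsAs {K M Ω : Type} [Field K] [Field M] [Field Ω] (i : K →+* Ω) (j : M →+* Ω) (σ : K → K)
    (τ : M → M) : Prop :=
  ∀ c z, j z = i c → j (τ z) = i (σ c)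

/-- Let `k ⊆ K ⊆ Ω` and `F ⊆ M ⊆ Ω` be fields.  A splitting of `Gal(M/F) → Gal(K/k)`: a continuous
homomorphism `s` from `Gal(K/k)` to `Gal(M/F)` such that `s(σ)` acts as `σ` on the elements of
`K ∩ M`. -/
structure Splitting (K M : Type) [Field K] [Field M] [Algebra k K] [Algebra F M] [Algebra K Ω]
    [Algebra M Ω] where
  /-- the homomorphism `Gal(K/k) → Gal(M/F)` -/
  toHom : (K ≃ₐ[k] K) →* (M ≃ₐ[F] M)
  cont : Continuous toHom
  compat : ∀ σ : K ≃ₐ[k] K, ActsAs (algebraMap K Ω) (algebraMap M Ω) σ (toHom σ)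

/-- The sections of `π₁(U) = Gal(F_U/F) → G_k`: the continuous homomorphisms `s` from
`G_k = Gal(k̄/k)` to `Gal(F_U/F)`, where `k̄` is the algebraic closure of `k` in `Ω`, such that
`s(σ)` acts as `σ` on the elements of `k̄`. -/
def GaloisSection (U : Set (ValuationSubring F)) : Type :=
  Splitting k F Ω (algebraicClosure k Ω) (unramified F Ω U)

end sections

/-- A place of the field `M` with values in the field `C`: a valuation ring with an embedding of its
residue field in `C`, given as a homomorphism `ρ` on the valuation ring whose kernel is the maximal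
ideal. -/
structure Place (M C : Type) [Field M] [Field C] where
  /-- the valuation ring -/
  V : ValuationSubring M
  /-- the residue map -/
  ρ : V →+* C
  unit : ∀ x : V, ρ x ≠ 0 → (x : M)⁻¹ ∈ V

/-- The place `p` of `M` turns the map `σ : M → M` into `τ : C → C`. -/
def Turns {M C : Type} [Field M] [Field C] (p : Place M C) (σ : M → M) (τ : C → C) : Prop :=
  ∀ x (hx : x ∈ p.V), ∃ h' : σ x ∈ p.V, p.ρ ⟨σ x, h'⟩ = τ (p.ρ ⟨x, hx⟩)

/-- The splitting `s` is given over the field `L` with algebraic closure `C` by the place `p` of `M`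
with values in `C` (that is, for `M = F_U`, by a point of `U` or a cusp over `L`): for all
`τ ∈ Gal(C/L)` there is `σ` such that `p` turns the action of `s(σ)` into the one of `τ`. (Such a `σ`
is the restriction of `τ` to `ℚ̄ ⊆ F_U`, embedded in `C` by `p`.) -/
def GivenBy {k F Ω K M : Type} [Field k] [Field F] [Field Ω] [Field K] [Field M] [Algebra k K]
    [Algebra F M] [Algebra K Ω] [Algebra M Ω] (s : Splitting k F Ω K M) (L : Type) {C : Type}
    [Field L] [Field C] [Algebra L C] (p : Place M C) : Prop :=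
  ∀ τ : C ≃ₐ[L] C, ∃ σ, Turns p (s.toHom σ) τ

/-- The splitting is locally geometric: it is given over `ℝ` and over all `ℚ_q` by places. -/
def LocallyGeometric {k F Ω K M : Type} [Field k] [Field F] [Field Ω] [Field K] [Field M]
    [Algebra k K] [Algebra F M] [Algebra K Ω] [Algebra M Ω] (s : Splitting k F Ω K M) : Prop :=
  (∃ p : Place M (AlgebraicClosure ℝ), GivenBy s ℝ p) ∧
    ∀ (q : ℕ) [Fact q.Prime], ∃ p : Place M (AlgebraicClosure ℚ_[q]), GivenBy s ℚ_[q] p

/-- No section of `π₁(U) → G_k` is locally geometric. -/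
def NoLocallyGeometricSection (k F Ω : Type) [Field k] [Field F] [Field Ω] [Algebra F Ω]
    [Algebra k Ω] (U : Set (ValuationSubring F)) : Prop :=
  ∀ s : GaloisSection k F Ω U, ¬ LocallyGeometric s

/-- The curves with the property: for all their equations `y² = x (x - A) (x - B)` with integers `A`,
`B` and all squarefree `b ∣ A B` such that `C_b` has no rational point, and for all fields `F` over
`ℚ` such that `C_b` has a point over `F` and all sets `U` of valuation rings of `F` over `ℚ`, no
section of `π₁(U)` is locally geometric. -/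
def NoSelmerSections : Set (ℤ × ℤ) :=
  {c | ∀ A B : ℤ, IsModel c A B → ∀ b : ℤ, Squarefree b → b ∣ A * B → ¬ HasPoint ℚ A B b →
    ∀ (F Ω : Type) [Field F] [Field Ω] [Algebra ℚ F] [Algebra F Ω] [Algebra ℚ Ω]
    [IsScalarTower ℚ F Ω] [IsAlgClosure F Ω] (U : Set (ValuationSubring F)),
    (∀ O ∈ U, ∀ a : ℚ, algebraMap ℚ F a ∈ O) → HasPoint F A B b →
    NoLocallyGeometricSection ℚ F Ω U}

/-- the curves with an equation `y² = x (x - A) (x - B)`, `A`, `B` integers, for which at least `n` of
the curves `C_b` have points over `ℝ` and all `ℚ_p` and no rational point -/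
def Violations (n : ℕ) : Set (ℤ × ℤ) :=
  {c | ∃ A B : ℤ, IsModel c A B ∧ n ≤ {b : ℤ | Squarefree b ∧ b ∣ A * B ∧ HasPoint ℝ A B b ∧
    (∀ (p : ℕ) [Fact p.Prime], HasPoint ℚ_[p] A B b) ∧ ¬ HasPoint ℚ A B b}.ncard}

lemma none_of {k F Ω : Type} [Field k] [Field F] [Field Ω] [Algebra F Ω] [Algebra k Ω]
    {U : Set (ValuationSubring F)}
    (h : ∀ G : Pool.Agent.W620.SC.GSection k F Ω U, ¬ Pool.Agent.Q284.SC.LocGeo G) :
    NoLocallyGeometricSection k F Ω U := by
  rintro s ⟨⟨p, hp⟩, h2⟩
  refine h ⟨s.toHom, s.cont, s.compat⟩ ⟨⟨⟨p.V, p.ρ, p.unit⟩, hp⟩, fun q _ => ?_⟩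
  obtain ⟨p, hp⟩ := h2 q
  exact ⟨⟨p.V, p.ρ, p.unit⟩, hp⟩

lemma mem_two {T : ℕ} {c : ℤ × ℤ} (h : Pool.Agent.Q284.FDQ.PQ (T + 1) c) :
    c ∈ NoSelmerSections ∩ Violations (2 ^ T) := by
  refine ⟨fun A B hM b hb hd hn F Ω _ _ _ _ _ _ _ U hU hF => none_of fun G hG => ?_, ?_⟩
  · obtain ⟨hA, hB, hAB, h4, hc⟩ := h.2.1 A B hM
    have hc4 : (Pool.Agent.W307.SE.Sel A B).ncard ≤ 4 := by
      rw [hc, h.1.2.1]
      norm_num
    have hcl : IsAlgClosed Ω := IsAlgClosure.isAlgClosed F
    have halg : Algebra.IsAlgebraic F Ω := IsAlgClosure.isAlgebraic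
    exact hn (Pool.Agent.Q284.SC.main2 hU hG hA hB hAB h4 hc4 hb hd hF)
  · obtain ⟨A, B, h1, h2⟩ := Pool.Agent.Q284.FDQ.many_not h
    refine ⟨A, B, h1, h2.trans (le_of_eq ?_)⟩
    congr 1
    ext b
    constructor
    · rintro ⟨⟨k1, k2, k3, k5⟩, k6⟩
      exact ⟨k1, k2, k3, k5, k6⟩
    · rintro ⟨k1, k2, k3, k5, k6⟩
      exact ⟨⟨k1, k2, k3, k5⟩, k6⟩

/-- **Theorem.** Order the elliptic curves over `ℚ` with full rational 2-torsion by the naive height
or by the absolute value of the minimal discriminant. For both orderings there are finitely many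
curves of size at most `Z`, their number tends to infinity with `Z`, and for every `T` a positive
proportion of the curves (the lower density is positive) belongs to `NoSelmerSections` and has at
least `2 ^ T` curves `C_b` with points over `ℝ` and all `ℚ_p` and without rational points (and so, by
`NoSelmerSections`, without locally geometric sections for all the curves that map to them) for one
of its equations `y² = x (x - A) (x - B)`. -/
theorem result : ∀ I : ℤ × ℤ → ℕ → Prop, I = HeightLe ∨ I = DiscLe →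
    (∀ Z : ℕ, (Fam I Z).Finite) ∧ Tendsto (fun Z : ℕ => (Fam I Z).ncard) atTop atTop ∧
    ∀ T : ℕ, ∃ δ : ℝ, 0 < δ ∧
      ∀ᶠ Z : ℕ in atTop, δ ≤ proportion I (NoSelmerSections ∩ Violations (2 ^ T)) Z := by
  classical
  have h0 : ∀ T : ℕ, ∃ c : ℝ, 0 < c ∧ ∃ H0 : ℕ, ∀ H : ℕ, H0 ≤ H →
      c * ((Pool.Agent.W307.RT.Cv 2 H).card : ℝ) ≤
        (((Pool.Agent.W307.RT.Cv 2 H).filter (Pool.Agent.Q284.FDQ.PQ (T + 1))).card : ℝ) := by
    intro T
    obtain ⟨c, hc, H0, h⟩ := Pool.Agent.Q284.FDQ.curvesPQ (T + 1)
    refine ⟨c, hc, H0, fun H hH => (h H hH).trans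
      (Nat.cast_le.2 (card_le_card fun k hk => ?_))⟩
    rw [mem_filter] at hk ⊢
    exact hk
  have hfin : ∀ I : ℤ × ℤ → ℕ → Prop, I = HeightLe ∨ I = DiscLe → ∀ Z : ℕ, (Fam I Z).Finite := by
    rintro I (rfl | rfl) Z
    · rw [FamH_eq]
      exact finite_toSet _
    · rw [FamD_eq]
      exact finite_toSet _
  intro I hI
  refine ⟨hfin I hI, ?_, fun T => ?_⟩
  · rcases hI with rfl | rfl
    · exact tendstoH
    · exact tendstoD
  · rcases hI with rfl | rfl
    · obtain ⟨c, hc, H0, h⟩ := h0 T
      refine ⟨c, hc, ?_⟩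
      filter_upwards [eventually_ge_atTop H0, tendstoH.eventually_ge_atTop 1] with H hH hH1
      unfold proportion
      rw [le_div_iff₀ (by exact_mod_cast hH1)]
      have e1 : (Fam HeightLe H).ncard = (Pool.Agent.W307.RT.Cv 2 H).card := by
        rw [FamH_eq, Set.ncard_coe_finset]
      rw [e1]
      refine (h H hH).trans (Nat.cast_le.2 ?_)
      rw [← Set.ncard_coe_finset]
      refine Set.ncard_le_ncard (fun k hk => ?_) (Set.Finite.inter_of_left
        (hfin _ (Or.inl rfl) _) _)
      rw [mem_coe, mem_filter] at hk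
      refine ⟨?_, mem_two hk.2⟩
      rw [FamH_eq, mem_coe]
      exact hk.1
    · obtain ⟨c, hc, H0, h⟩ := Pool.Agent.Y667.RP.disc_of_height
        (Pool.Agent.Q284.FDQ.PQ (T + 1)) (h0 T)
      refine ⟨c, hc, ?_⟩
      filter_upwards [eventually_ge_atTop H0, tendstoD.eventually_ge_atTop 1] with H hH hH1
      unfold proportion
      rw [le_div_iff₀ (by exact_mod_cast hH1)]
      have e1 : (Fam DiscLe H).ncard = (Pool.Agent.TH344.DS.Dv H).card := by
        rw [FamD_eq, Set.ncard_coe_finset]
      rw [e1]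
      refine (h H hH).trans (Nat.cast_le.2 ?_)
      rw [← Set.ncard_coe_finset]
      refine Set.ncard_le_ncard (fun k hk => ?_) (Set.Finite.inter_of_left
        (hfin _ (Or.inr rfl) _) _)
      rw [mem_coe, mem_filter] at hk
      refine ⟨?_, mem_two hk.2⟩
      rw [FamD_eq, mem_coe]
      exact hk.1

end Pool.Agent.Results.MP_2f3286_ag.SelmerSections
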