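import Pool.Agent.Q202.TR.Cls

/-!
# Sections for the line minus three points over `ℤ[1/ℓ]`, for regular primes `ℓ`

Let `ℓ` be an odd regular prime and `U` the line minus the points `0`, `1`, `∞` over `ℚ`, with the
coordinate `x`.  We consider sections `s` of the geometrically pro-`ℓ` fundamental group of `U`, or of
any larger group: of `Gal(N/F) → G_ℚ`, where `F` is a function field of transcendence degree one over
`ℚ` with a nonconstant element `x` (for instance `F = ℚ(x)`, or the function field of a curve with a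
nonconstant map to `U`), and where `N` contains the maximal pro-`ℓ` extension of `ℚ̄(x)` which is
unramified outside `0`, `1`, `∞` (for instance the field `N` with `Gal(N/F)` the fundamental group of
the curve, or the algebraic closure of `F`).

For all `n`, such a section has Kummer classes of the functions `x` and `1 - x` in
`H¹(ℚ, μ_{ℓ^n}) = ℚˣ / (ℚˣ)^(ℓ^n)`: the class of `c`, if `x = c z ^ (ℓ^n)` with an element `z` of `N`
fixed by `s`.

**Theorem.** *Suppose that the Kummer classes of `x` and `1 - x` modulo `ℓ^n` are classes of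
numbers `± ℓ^i` for all `n`, so that they are unramified outside `ℓ`, and that `s` is given over
`ℚ_ℓ(ζ_ℓ)` by a point of `U` or by a cusp.  Then it is given there by a cusp: `x` has the value `0`,
`1` or `∞`.  If the value is `0`, the Kummer classes of `1 - x` are trivial for all `n`; if it is `1`,
those of `x` are trivial, and if it is `∞`, those of `x / (x - 1)`.*

So the section of the abelianised geometrically pro-`ℓ` fundamental group which is induced by `s` (it
is described by the Kummer classes of `x` and `1 - x`) is, globally over `ℚ`, the one of a tangent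
vector `± ℓ^i` (with `i` in `ℤ_ℓ`) at one of the three cusps.

The condition on the Kummer classes is satisfied if `s` is unramified outside `ℓ`, that is, if it
comes from a section of the fundamental group of the line minus three points over `ℤ[1/ℓ]`, and if
`s` is the section attached to a tangent vector at one of the cusps which is a unit of `ℤ[1/ℓ]`.
So sections which are integral outside of `ℓ` and locally given by a point or cusp at `ℓ` are there
given by a cusp, in accordance with the section conjecture, as the equation `x + y = 1` has no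
solutions in units of `ℤ[1/ℓ]`.  The Kummer classes alone do not give this, as there are the
solutions in `(ℓ - 1)`-st roots of unity in `ℚ_ℓ` for `ℓ ≡ 1` modulo `6`, and as the section is only
compared with `ℚ_ℓ(ζ_ℓ)`.

In `FermatQuotients` the Kummer class of one function `x^a (1 - x)^b` with `ℓ ∤ a`, `ℓ ∤ b`,
`ℓ ∤ a + b` modulo `ℓ` was assumed to be trivial.  This is not so for the classes considered here, if
for instance `x` has the class of `ℓ^i` and `1 - x` the class of `ℓ^j` with `i ≡ j` or `i ≡ 0` or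
`j ≡ 0` modulo `ℓ`, not both zero.

The proof of the first part is in the starting library (`Y158.FQ.Trip`, `Y158.FQ.Trip2`,
`Y158.FQ.Trip4`): if the local point is not a cusp, the values of `x` and `1 - x` show that the
classes are trivial modulo `ℓ`, the section lifts to the Fermat curve `u ^ ℓ + w ^ ℓ = 1`, and
Kummer's proof of Fermat's last theorem for regular primes can be carried out in the fixed field of
the section.  The second part follows from the values of the elements fixed by `s` in `ℚ_ℓ(ζ_ℓ)`.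
-/

set_option autoImplicit false

open IsDedekindDomain NumberField Pool.Agent.W620.SC Pool.Agent.TH954

namespace Pool.Agent.Results.MP_2f3286_ag.TripodUnitClasses

/-- `z` is a unit of the valuation ring `W`. -/
def IsUnitAt {Ω : Type} [Field Ω] (W : ValuationSubring Ω) (z : Ω) : Prop :=
  z ≠ 0 ∧ z ∈ W ∧ z⁻¹ ∈ W

/-- For the line minus three points: the maximal extension in `Ω` of `ℚ̄(x)` which is a union of finite
Galois extensions `L` of degree a power of `ℓ` that are unramified outside `x = 0, 1, ∞`, that is, for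
each valuation ring `W` over `ℚ` at which `x` and `1 - x` are units each nonzero element of `L` has
the same value as an element of `ℚ̄(x)`. -/
def TripodEll (ℓ : ℕ) {Ω : Type} [Field Ω] [Algebra ℚ Ω] (x : Ω) : Set Ω :=
  {z | ∃ L : IntermediateField (IntermediateField.adjoin (algebraicClosure ℚ Ω) {x}) Ω,
    z ∈ L ∧ FiniteDimensional (IntermediateField.adjoin (algebraicClosure ℚ Ω) {x}) L ∧
    IsGalois (IntermediateField.adjoin (algebraicClosure ℚ Ω) {x}) L ∧
    (∃ m : ℕ, Module.finrank (IntermediateField.adjoin (algebraicClosure ℚ Ω) {x}) L = ℓ ^ m) ∧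
    ∀ W : ValuationSubring Ω, (∀ c : ℚ, algebraMap ℚ Ω c ∈ W) → IsUnitAt W x →
      IsUnitAt W (1 - x) → ∀ y ∈ L, y ≠ 0 →
        ∃ t ∈ IntermediateField.adjoin (algebraicClosure ℚ Ω) {x}, t ≠ 0 ∧ IsUnitAt W (y / t)}

/-- The Kummer classes of the function `f` along the section `s` are units outside `ℓ`: for all `n`
there are a sign, an integer `i` and an element `z` of `N` fixed by `s` such that
`f = ± ℓ ^ i z ^ (ℓ ^ n)`. -/
def UnitClasses (ℓ : ℕ) {F Ω B : Type} [Field F] [Field Ω] [Field B] [Algebra ℚ F] [Algebra F Ω]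
    [Algebra ℚ Ω] [Algebra ℚ B] [IsScalarTower ℚ F Ω] {N : IntermediateField F Ω}
    (s : GalSection ℚ F N B) (f : F) : Prop :=
  ∀ n : ℕ, ∃ (ε : ℤˣ) (i : ℤ) (z : N), (∀ g : B ≃ₐ[ℚ] B, s.s g z = z) ∧
    algebraMap F N f = algebraMap ℚ N (((ε : ℤ) : ℚ) * (ℓ : ℚ) ^ i) * z ^ (ℓ ^ n)

/-- The Kummer classes of the function `f` along the section `s` are trivial modulo `ℓ ^ n` for all
`n`: `f` is the `ℓ ^ n`-th power of an element of `N` fixed by `s`. -/
def TrivialClasses (ℓ : ℕ) {F Ω B : Type} [Field F] [Field Ω] [Field B] [Algebra ℚ F]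
    [Algebra F Ω] [Algebra ℚ Ω] [Algebra ℚ B] [IsScalarTower ℚ F Ω] {N : IntermediateField F Ω}
    (s : GalSection ℚ F N B) (f : F) : Prop :=
  ∀ n : ℕ, ∃ z : N, (∀ g : B ≃ₐ[ℚ] B, s.s g z = z) ∧ algebraMap F N f = z ^ (ℓ ^ n)

/-- **Sections for the line minus three points over `ℤ[1/ℓ]`.**  Let `ℓ` be an odd prime that does not
divide the class number of `K = ℚ(ζ_ℓ)`, let `F` be a function field of transcendence degree one over
`ℚ` with algebraic closure `Ω`, and let `x` be a nonconstant element of `F`.  Let `N` be an extension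
of `F` in `Ω` which contains `TripodEll ℓ x`, and let `s` be a section of `Gal(N/F) → G_ℚ` such that
the Kummer classes of `x` and `1 - x` along `s` are units outside `ℓ`.  Let `v` be the place of `K`
above `ℓ` and `p` a place of `N` with values in the algebraic closure of `K_v` that gives `s` over
`K_v`.  Then `x` has the value `0`, `1` or `∞` at `p`, and the Kummer classes along `s` of `1 - x`, of
`x` or of `x / (x - 1)`, respectively, are trivial. -/
theorem result (ℓ : ℕ) [Fact ℓ.Prime] (hℓ : ℓ ≠ 2) (K : Type) [Field K] [NumberField K]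
    [IsCyclotomicExtension {ℓ} ℚ K] (hreg : ¬ ℓ ∣ classNumber K)
    (F Ω B : Type) [Field F] [Field Ω] [Field B] [Algebra ℚ F] [Algebra F Ω] [Algebra ℚ Ω]
    [Algebra ℚ B] [IsScalarTower ℚ F Ω] [IsAlgClosed Ω] [Algebra.IsAlgebraic F Ω]
    [IsAlgClosure ℚ B] (x : F) (hx : Transcendental ℚ x)
    (hF : Algebra.IsAlgebraic (IntermediateField.adjoin ℚ {x}) F)
    (N : IntermediateField F Ω) (hN : TripodEll ℓ (algebraMap F Ω x) ⊆ N)
    (s : GalSection ℚ F N B) (hsx : UnitClasses ℓ s x) (hsx' : UnitClasses ℓ s (1 - x))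
    (v : HeightOneSpectrum (𝓞 K)) (hv : (ℓ : 𝓞 K) ∈ v.asIdeal)
    (p : Plc ℚ N (AlgebraicClosure (v.adicCompletion K)))
    (hp : s.GivenBy (v.adicCompletion K) p) :
    (p.val (algebraMap F N x) 0 ∧ TrivialClasses ℓ s (1 - x)) ∨
      (p.val (algebraMap F N x) 1 ∧ TrivialClasses ℓ s x) ∨
      (p.val (algebraMap F N x)⁻¹ 0 ∧ TrivialClasses ℓ s (x / (x - 1))) := by
  have hℓp : ℓ.Prime := Fact.out
  have hℓ2 : 2 < ℓ := lt_of_le_of_ne hℓp.two_le (Ne.symm hℓ)
  have hodd : Odd ℓ := hℓp.odd_of_ne_two hℓ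
  have hcop : (classNumber K).Coprime ℓ := ((Nat.Prime.coprime_iff_not_dvd hℓp).2 hreg).symm
  have hKL := Pool.Agent.Y158.KL.kummer_lemma (IsCyclotomicExtension.zeta_spec ℓ ℚ K) hℓ2 hcop
  obtain ⟨ζ, hζ⟩ : ∃ ζ : K, IsPrimitiveRoot ζ ℓ := ⟨_, IsCyclotomicExtension.zeta_spec ℓ ℚ K⟩
  have hvl : v = Pool.Agent.Y158.KL.lam hζ := by
    by_contra hne
    exact Pool.Agent.Y158.GR.ell_notMem hζ hne hv
  subst hvl
  -- signs are `ℓ ^ n`-th powers
  have hsign : ∀ y : F, UnitClasses ℓ s y → ∀ n : ℕ, ∃ (i : ℤ) (z : N),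
      (∀ g : B ≃ₐ[ℚ] B, s.s g z = z) ∧
      algebraMap F N y = algebraMap ℚ N ((ℓ : ℚ) ^ i) * z ^ (ℓ ^ n) := by
    intro y hy n
    obtain ⟨ε, i, z, hz, hyz⟩ := hy n
    have hfixQ : ∀ (q : ℚ) (g : B ≃ₐ[ℚ] B), s.s g (algebraMap ℚ N q) = algebraMap ℚ N q := by
      intro q g
      rw [IsScalarTower.algebraMap_apply ℚ F N]
      exact (s.s g).commutes _
    refine ⟨i, algebraMap ℚ N ((ε : ℤ) : ℚ) * z, fun g => by rw [map_mul, hfixQ, hz], ?_⟩
    have h1 : (((ε : ℤ) : ℚ)) ^ (ℓ ^ n) = ((ε : ℤ) : ℚ) := by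
      rcases Int.units_eq_one_or ε with rfl | rfl
      · simp
      · have h2 : Odd (ℓ ^ n) := hodd.pow
        push_cast
        rw [h2.neg_one_pow]
    rw [hyz, mul_pow, ← map_pow, h1, map_mul]
    ring
  have hx0 : x ≠ 0 := by
    rintro rfl
    exact hx isAlgebraic_zero
  have hx1 : 1 - x ≠ 0 := by
    intro h3
    have h4 : x = 1 := by linear_combination -h3
    rw [h4] at hx
    exact hx isAlgebraic_one
  -- the quotient
  have hq : UnitClasses ℓ s (x / (x - 1)) := by
    intro n
    obtain ⟨ε, i, z, hz, hxz⟩ := hsx n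
    obtain ⟨ε', i', z', hz', hxz'⟩ := hsx' n
    refine ⟨-(ε * ε'), i - i', z / z', fun g => by rw [map_div₀, hz, hz'], ?_⟩
    have hℓQ : (ℓ : ℚ) ≠ 0 := Nat.cast_ne_zero.2 hℓp.ne_zero
    have e1 : x / (x - 1) = -(x / (1 - x)) := by
      rw [← div_neg, neg_sub]
    have hε : ((((-(ε * ε') : ℤˣ) : ℤ) : ℚ)) = -(((ε : ℤ) : ℚ) / ((ε' : ℤ) : ℚ)) := by
      rcases Int.units_eq_one_or ε with rfl | rfl <;> rcases Int.units_eq_one_or ε' with rfl | rfl <;>
        norm_num
    rw [e1, map_neg, map_div₀, hxz, hxz', hε, zpow_sub₀ hℓQ, div_pow]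
    simp only [map_mul, map_neg, map_div₀]
    ring
  have hd := Pool.Agent.Y158.FQ.tripFin hζ hodd hcop hKL x hx hF N
    (fun z ⟨L, h1, h2, h3⟩ => hN ⟨L, h1, h2.fin, h2.gal, h2.card, h3⟩) s p hp hsx hsx'
  rcases hd with h | h | h
  · refine Or.inl ⟨h, ?_⟩
    refine Pool.Agent.Q202.TR.trivial_classes' hζ (1 - x) N s p hp (hsign _ hsx') ?_
    have := Plc.val_one.sub h
    rw [map_sub, map_one]
    rwa [sub_zero] at this
  · exact Or.inr (Or.inl ⟨h, Pool.Agent.Q202.TR.trivial_classes' hζ x N s p hp (hsign _ hsx) h⟩)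
  · refine Or.inr (Or.inr ⟨h, ?_⟩)
    refine Pool.Agent.Q202.TR.trivial_classes' hζ (x / (x - 1)) N s p hp (hsign _ hq) ?_
    have h1 : p.val (1 - (algebraMap F N x)⁻¹) (1 - 0) := Plc.val_one.sub h
    rw [sub_zero] at h1
    have h2 := h1.inv one_ne_zero
    rw [inv_one] at h2
    have h3 : algebraMap F N (x / (x - 1)) = (1 - (algebraMap F N x)⁻¹)⁻¹ := by
      have hX : algebraMap F N x ≠ 0 := (_root_.map_ne_zero _).2 hx0
      rw [map_div₀, map_sub, map_one, ← inv_div, sub_div, div_self hX, one_div]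
    rw [h3]
    exact h2

end Pool.Agent.Results.MP_2f3286_ag.TripodUnitClasses
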